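import Pool.Agent.Lib.helper10.Walsh

namespace Pool.Agent.H.MP_d27c5e_an

open MeasureTheory Finset Filter Pool.Agent.Lib.helper10.Walsh
open scoped ENNReal

theorem split (a b : ℕ) (f : ℕ → ℝ) :
    ∑ i ∈ range (b * a), f i = ∑ m ∈ range a, ∑ i ∈ range b, f (b * m + i) := by
  induction a with
  | zero => simp
  | succ a ih => rw [mul_add_one, sum_range_add, ih, sum_range_succ]

theorem piece {q : ℕ → ℝ} {θ p : ℝ} (h0 : ∀ n, 0 < q n) (h1 : Antitone q)
    (h2 : ∀ n, ∀ l < n, q (n + l) ≤ θ * q l) (hθ : θ < 1) (p0 : 0 < p) (p1 : p ≤ 1) (k a : ℕ) :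
    ∃ B > 0, (∀ x ∈ I (k + 2) fun j => decide (k ≤ j),
      |∑ i ∈ range (2 ^ (k + 2 + a)), (∑ l ∈ range (i + 1), q l) * w i x| ≤ B) ∧
      2⁻¹ ^ (k + 2) * (1 - θ) * (4 ^ k * q (2 ^ (k + 1))) ^ p ≤
        ∫ x, (I (k + 2) fun j => decide (k ≤ j)).indicator (fun x => B ^ (p - 1) *
          -∑ i ∈ range (2 ^ (k + 2 + a)), (∑ l ∈ range (i + 1), q l) * w i x) x ∂mu := by
  set B : ℕ → ℝ := fun t => ∑ i ∈ range (2 ^ k), ∑ l ∈ range (2 ^ k), q (2 ^ k * t + i + 1 + l)
    with hB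
  set E := I (k + 2) fun j => decide (k ≤ j) with hE
  have b0 : ∀ t, 0 < B t := fun t => sum_pos (fun i _ => sum_pos (fun _ _ => h0 _) (by simp)) (by simp)
  have b1 : Antitone B := fun s t h => sum_le_sum fun i _ => sum_le_sum fun l _ => h1 (by gcongr)
  have b2 : B 2 ≤ θ * B 0 := by
    simp only [hB, mul_sum]
    refine sum_le_sum fun i hi => sum_le_sum fun l hl => ?_
    rw [mem_range] at hi hl
    simpa [add_assoc] using h2 (2 ^ k * 2) (i + 1 + l) (by omega)
  have b3 : 4 ^ k * q (2 ^ (k + 1)) ≤ B 0 := by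
    refine le_trans (le_of_eq ?_) (sum_le_sum fun i hi => sum_le_sum (f := fun _ => q (2 ^ (k + 1)))
      fun l hl => h1 (by rw [mem_range] at hi hl; omega))
    simp [← mul_assoc, ← mul_pow]
    norm_num
  have e1 : ∀ x ∈ E, -∑ i ∈ range (2 ^ (k + 2 + a)), (∑ l ∈ range (i + 1), q l) * w i x =
      ∑ m ∈ range (2 ^ a), (B (4 * m) - B (4 * m + 2)) * w (2 ^ (k + 2) * m) x := fun x hx => by
    rw [pow_add, split, ← sum_neg_distrib]
    refine sum_congr rfl fun m _ => ?_
    have r1 : r k x = -1 := by simp [r, hx k (by omega)]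
    have r2 : r (k + 1) x = -1 := by simp [r, hx (k + 1) (by omega)]
    have e0 : ∀ i < 2 ^ k, w i x = 1 := fun i hi => (w_congr hi fun j hj => by
      simp [hx j (by omega), hj]).trans (w_zero i)
    obtain ⟨A, hA⟩ : ∃ A : ℕ → ℝ, ∀ t,
        A t = ∑ i ∈ range (2 ^ k), ∑ l ∈ range (2 ^ k * t + i + 1), q l := ⟨_, fun _ => rfl⟩
    have e2 : ∀ t, ∑ i ∈ range (2 ^ k), (∑ l ∈ range (2 ^ (k + 2) * m + (2 ^ k * t + i) + 1), q l) *
        w (2 ^ k * t + i) x = w (2 ^ k * t) x * A (4 * m + t) := fun t => by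
      rw [hA, mul_sum]
      refine sum_congr rfl fun i hi => ?_
      rw [w_add (mem_range.1 hi), e0 i (mem_range.1 hi), mul_one, mul_comm]
      congr 3
      ring
    have e3 : ∀ t, B t = A (t + 1) - A t := fun t => by
      rw [hA, hA, ← sum_sub_distrib]
      refine sum_congr rfl fun i _ => ?_
      rw [show 2 ^ k * (t + 1) + i + 1 = 2 ^ k * t + i + 1 + 2 ^ k by ring, sum_range_add _ _ (2 ^ k)]
      ring
    have w3 : w (2 ^ k * 3) x = 1 := by
      rw [show 2 ^ k * 3 = 2 ^ (k + 1) * 1 + 2 ^ k by ring, w_add (Nat.pow_lt_pow_succ one_lt_two),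
        mul_one, w_pow, w_pow, r1, r2]
      norm_num
    rw [sum_congr rfl fun i hi => by rw [w_add (mem_range.1 hi), mul_left_comm], ← mul_sum,
      pow_add 2 k 2, split, ← pow_add]
    simp only [e2]
    simp only [e3, sum_range_succ, show 2 ^ 2 = 4 from rfl, sum_range_zero, w3, mul_zero, mul_one,
      ← pow_succ, w_pow, r1, r2, e0 0 (by positivity), add_zero]
    ring
  refine ⟨B 0, b0 0, fun x hx => ?_, ?_⟩
  · rw [← abs_neg, e1 x hx]
    refine (abs_sum_le_sum_abs _ _).trans ((sum_le_sum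
      (g := fun m => B (4 * m) - B (4 * (m + 1))) fun m _ => ?_).trans ?_)
    · rw [abs_mul, w_abs, mul_one, abs_of_nonneg (sub_nonneg.2 (b1 (by omega)))]
      exact sub_le_sub_left (b1 (by omega)) _
    · rw [sum_range_sub' fun m => B (4 * m)]
      exact sub_le_self _ (b0 _).le
  have i1 : ∀ n, Integrable (E.indicator (w n)) mu := fun n =>
    (w_int1 n).indicator (I_meas _ _)
  rw [integral_congr_ae (g := fun x => B 0 ^ (p - 1) * ∑ m ∈ range (2 ^ a),
      (B (4 * m) - B (4 * m + 2)) * E.indicator (w (2 ^ (k + 2) * m)) x) (.of_forall fun x => by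
    by_cases hx : x ∈ E
    · simp only [Set.indicator_of_mem hx, e1 x hx]
    · simp [hx]), integral_const_mul, integral_finsetSum _ fun m _ => (i1 _).const_mul _,
    sum_eq_single 0 (fun m _ hm => ?_) (by simp), integral_const_mul, integral_indicator (I_meas _ _)]
  · have := Real.rpow_le_rpow (mul_pos (by positivity) (h0 _)).le b3 p0.le
    simp only [mul_zero, w, range_zero, prod_empty, integral_const, smul_eq_mul, mul_one, zero_add,
      measureReal_restrict_apply_univ, hE, real_I]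
    rw [Real.rpow_sub_one (b0 0).ne']
    calc _ ≤ 2⁻¹ ^ (k + 2) * (1 - θ) * B 0 ^ p := by gcongr
      _ = B 0 ^ p / B 0 * ((B 0 - θ * B 0) * 2⁻¹ ^ (k + 2)) := by field_simp [(b0 0).ne']
      _ ≤ _ := by gcongr; exact div_nonneg (Real.rpow_nonneg (b0 0).le _) (b0 0).le
  · obtain ⟨b, hb⟩ := Nat.exists_testBit_of_ne_zero hm
    rw [integral_const_mul, odd (b := k + 2 + b) fun x => ?_, mul_zero]
    have := sat (MeasurableSpace.measurableSet_generateFrom ⟨fun j => decide (k ≤ j), rfl⟩)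
      (flip_I (Nat.le_add_right (k + 2) b) x)
    by_cases hx : x ∈ E
    · simp [hx, hE ▸ this.1 hx, w_flip, Nat.testBit_two_pow_mul, hb]
    · simp [hx, hE ▸ mt this.2 hx]

theorem lower {q : ℕ → ℝ} {θ p κ : ℝ} (h0 : ∀ n, 0 < q n) (h1 : Antitone q)
    (h2 : ∀ n, ∀ l < n, q (n + l) ≤ θ * q l) (hθ : θ < 1) (p0 : 0 < p) (p1 : p ≤ 1)
    (h3 : ∀ k, κ * 2 ^ k ≤ (4 ^ k * q (2 ^ (k + 1))) ^ p) (M : ℕ) : M * ((1 - θ) * κ / 4) ≤
      ∫ x, |∑ i ∈ range (2 ^ (M + 1)), (∑ l ∈ range (i + 1), q l) * w i x| ^ p ∂mu := by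
  set P : G → ℝ := fun x => ∑ i ∈ range (2 ^ (M + 1)), (∑ l ∈ range (i + 1), q l) * w i x with hP
  have i1 : Integrable P mu := integrable_finsetSum _ fun i _ =>
    (w_int1 i).const_mul _
  have i2 : Integrable (fun x => |P x| ^ p) mu := by
    refine ((integrable_const 1).add i1.abs).mono' (i1.1.norm.aemeasurable.pow_const p).aestronglyMeasurable
      (.of_forall fun x => ?_)
    rw [Real.norm_of_nonneg (by positivity), Pi.add_apply]
    exact (Real.rpow_le_rpow (abs_nonneg _) (le_add_of_nonneg_left zero_le_one) p0.le).trans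
      (Real.rpow_le_self_of_one_le (le_add_of_nonneg_right (abs_nonneg _)) p1)
  have : ∀ k : ℕ, ∃ B > 0, k < M → (∀ x ∈ I (k + 2) fun j => decide (k ≤ j), |P x| ≤ B) ∧
      (1 - θ) * κ / 4 ≤ ∫ x, (I (k + 2) fun j => decide (k ≤ j)).indicator
        (fun x => B ^ (p - 1) * -P x) x ∂mu := fun k => by
    obtain ⟨B, b0, b1, b2⟩ := piece h0 h1 h2 hθ p0 p1 k (M - 1 - k)
    refine ⟨B, b0, fun hk => ?_⟩
    rw [show k + 2 + (M - 1 - k) = M + 1 by omega] at b1 b2
    refine ⟨b1, le_trans (le_trans (le_of_eq ?_) (mul_le_mul_of_nonneg_left (h3 k)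
      (mul_nonneg (by positivity) (sub_pos.2 hθ).le))) b2⟩
    simp only [inv_pow]
    field_simp
    ring
  choose B b0 b1 using this
  have i3 : ∀ k, Integrable ((I (k + 2) fun j => decide (k ≤ j)).indicator
      fun x => B k ^ (p - 1) * -P x) mu := fun k => (i1.neg.const_mul _).indicator (I_meas _ _)
  refine le_trans ?_ (integral_mono (integrable_finsetSum (range M) fun k _ => i3 k) i2 fun x => ?_)
  · rw [integral_finsetSum _ fun k _ => i3 k]
    simpa using sum_le_sum fun k hk => (b1 k (mem_range.1 hk)).2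
  by_cases h : ∃ k < M, x ∈ I (k + 2) fun j => decide (k ≤ j)
  · obtain ⟨k, h4, h5⟩ := h
    beta_reduce
    rw [sum_eq_single k (fun j _ hj => Set.indicator_of_notMem (fun h6 => ?_) _) (by simp [h4]),
      Set.indicator_of_mem h5]
    · rcases (abs_nonneg (P x)).eq_or_lt with h6 | h6
      · rw [abs_eq_zero.1 h6.symm, neg_zero, mul_zero]
        positivity
      · calc _ ≤ B k ^ (p - 1) * |P x| :=
              mul_le_mul_of_nonneg_left (neg_le_abs _) (Real.rpow_nonneg (b0 k).le _)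
          _ ≤ |P x| ^ (p - 1) * |P x| := mul_le_mul_of_nonneg_right (Real.rpow_le_rpow_of_nonpos h6
              ((b1 k h4).1 x h5) (sub_nonpos.2 p1)) h6.le
          _ = _ := by rw [Real.rpow_sub_one h6.ne', div_mul_cancel₀ _ h6.ne']
    · have := h5 (min j k) (by omega)
      have := h6 (min j k) (by omega)
      grind
  · exact (sum_eq_zero fun k hk => Set.indicator_of_notMem
      (fun h' => h ⟨k, mem_range.1 hk, h'⟩) _).trans_le (by positivity)

/-- the standard test martingale -/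
noncomputable def tm (M n : ℕ) (x : G) : ℝ :=
  if M < n then (I M fun _ => false).indicator (fun _ => 2 ^ M) x * r M x else 0

theorem tm_eq {M n : ℕ} (h : M < n) (x : G) : tm M n x = ∑ i ∈ range (2 ^ M), w (2 ^ M + i) x := by
  rw [tm, if_pos h, ← dir, sum_mul]
  exact sum_congr rfl fun i hi => by simpa [w_pow, mul_comm] using (w_add (mem_range.1 hi) 1 x).symm

theorem tm_mart (M : ℕ) : Martingale (tm M) F mu := by
  have h1 : ∀ n, StronglyMeasurable[F n] (tm M n) := fun n => meas fun x y h => by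
    by_cases hn : M < n
    · rw [tm_eq hn, tm_eq hn]
      refine sum_congr rfl fun i hi => w_congr ?_ h
      have := Nat.pow_le_pow_right two_pos hn
      have := mem_range.1 hi
      omega
    · simp [tm, hn]
  have h2 : ∀ n, Integrable (tm M n) mu := fun n => by
    by_cases hn : M < n
    · rw [funext (tm_eq hn)]
      exact integrable_finsetSum _ fun i _ => w_int1 _
    · exact (integrable_zero _ _ _).congr (.of_forall fun x => by simp [tm, hn])
  refine martingale_nat h1 h2 fun n => ?_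
  rcases eq_or_ne n M with rfl | h
  · refine .trans (.of_forall fun x => by simp [tm]) (cond_zero (h2 _) le_rfl fun x => ?_).symm
    have := sat (MeasurableSpace.measurableSet_generateFrom ⟨fun _ => false, rfl⟩) (flip_I (le_refl n) x)
    have h3 : r n (flp n x) = -r n x := by simpa [w_pow] using w_flip (2 ^ n) n x
    by_cases hx : x ∈ I n fun _ => false
    · simp [tm, hx, this.1 hx, h3]
    · simp [tm, hx, mt this.2 hx]
  · have : tm M (n + 1) = tm M n := funext fun x => if_congr (by omega) rfl rfl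
    rw [this, condExp_of_stronglyMeasurable (F.le n) (h1 n) (h2 n)]

theorem tm_coef (M i : ℕ) : coef (tm M) i = if 2 ^ M ≤ i ∧ i < 2 ^ (M + 1) then 1 else 0 := by
  refine (tendsto_const_nhds.congr' ?_).limUnder_eq
  filter_upwards [eventually_gt_atTop M] with n hn
  simp only [tm_eq hn, sum_mul]
  rw [integral_finsetSum _ fun j _ => w_int _ _]
  simp only [orth]
  split_ifs with h
  · rw [sum_eq_single (i - 2 ^ M) (fun j _ hj => if_neg (by omega)) (by simp; omega),
      if_pos (by omega)]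
  · exact (sum_eq_zero fun j hj => if_neg (by have := mem_range.1 hj; omega)).symm

theorem tm_nH (M : ℕ) {p : ℝ} (hp : 0 < p) : ∫⁻ x, (⨆ n, ‖tm M n x‖ₑ) ^ p ∂mu ≤
    ENNReal.ofReal ((2 ^ M) ^ p * 2⁻¹ ^ M) := by
  refine (lintegral_mono (g := (I M fun _ => false).indicator fun _ =>
    ENNReal.ofReal ((2 ^ M) ^ p)) fun x => ?_).trans_eq ?_
  · by_cases hx : x ∈ I M fun _ => false
    · rw [Set.indicator_of_mem hx, ← ENNReal.ofReal_rpow_of_nonneg (by positivity) hp.le]
      refine ENNReal.rpow_le_rpow (iSup_le fun n => ?_) hp.le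
      rw [← ofReal_norm_eq_enorm, tm, Set.indicator_of_mem hx, ← w_pow]
      refine ENNReal.ofReal_le_ofReal ?_
      split_ifs <;> simp [w_abs]
    · simp [tm, hx, hp]
  · rw [lintegral_indicator_const (I_meas _ _), mu_I, ENNReal.ofReal_mul (by positivity),
      ENNReal.ofReal_pow (by positivity), ENNReal.ofReal_inv_of_pos two_pos, ENNReal.ofReal_ofNat]

theorem tm_S (q : ℕ → ℝ) (M : ℕ) (x : G) :
    |∑ k ∈ Icc 1 (2 ^ (M + 1)), q (2 ^ (M + 1) - k) * S (tm M) k x| =
      |∑ i ∈ range (2 ^ M), (∑ l ∈ range (i + 1), q l) * w i x| := by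
  have h0 : ∀ N (a : ℕ → ℝ), ∑ k ∈ Icc 1 N, q (N - k) * ∑ j ∈ range k, a j =
      ∑ i ∈ range N, (∑ l ∈ range (i + 1), q l) * a (N - 1 - i) := fun N a => by
    simp only [mul_sum, sum_mul, sum_sigma']
    refine sum_bij' (fun s _ => ⟨N - 1 - s.2, N - s.1⟩) (fun s _ => ⟨N - s.2, N - 1 - s.1⟩)
      ?_ ?_ ?_ ?_ ?_ <;> simp <;> grind
  have h1 : |∏ k ∈ range (M + 1), r k x| = 1 := by
    rw [abs_prod]
    exact prod_eq_one fun k _ => w_pow k x ▸ w_abs _ x
  simp only [S, h0, tm_coef]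
  refine .trans ?_ ((abs_mul (∏ k ∈ range (M + 1), r k x) _).trans (h1.symm ▸ one_mul _))
  rw [mul_sum, ← sum_subset
    (s₁ := range (2 ^ M)) (by simp [Nat.pow_le_pow_right]) fun i _ hi => by
      rw [if_neg (by grind), zero_mul, mul_zero]]
  refine congrArg _ (sum_congr rfl fun i hi => ?_)
  rw [if_pos (by grind), w_refl (by grind)]
  ring

theorem main {α θ c C : ℝ} (a0 : 0 < α) (a1 : α < 1) {q Z : ℕ → ℝ} (h0 : ∀ n, 0 < q n)
    (h1 : Antitone q) (h2 : ∀ n, ∀ l < n, q (n + l) ≤ θ * q l) (hθ : θ < 1) (hc : 0 < c)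
    (h3 : ∀ n : ℕ, 1 ≤ n → c * (n : ℝ) ^ (α - 1) ≤ q n) (h4 : ∀ n, 1 ≤ n → 0 < Z n)
    (h5 : ∀ n : ℕ, 1 ≤ n → Z n ≤ C * (n : ℝ) ^ α) (K : NNReal) : ∃ f n, Martingale f F mu ∧
      nH (1 / (1 + α)) f < ⊤ ∧ K * nH (1 / (1 + α)) f < nL (1 / (1 + α)) fun x =>
        (Z (2 ^ n))⁻¹ * ∑ k ∈ Icc 1 (2 ^ n), q (2 ^ n - k) * S f k x := by
  set p := 1 / (1 + α) with hp
  have p0 : 0 < p := by positivity
  have p1 : p ≤ 1 := by rw [hp, div_le_one (by positivity)]; linarith
  have p2 : (1 + α) * p = 1 := mul_one_div_cancel (by positivity)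
  have C0 : 0 < C := by simpa using (h4 1 le_rfl).trans_le (h5 1 le_rfl)
  set κ := (1 - θ) * (c * 2 ^ (α - 1)) ^ p / 4 with hκ
  have k0 : 0 < κ := by have := sub_pos.2 hθ; positivity
  obtain ⟨M, hM⟩ := exists_nat_gt ((K * (C * 2 ^ α)) ^ p / κ)
  have h6 := lower (κ := (c * 2 ^ (α - 1)) ^ p) h0 h1 h2 hθ p0 p1 (fun k => by
    refine le_trans (le_of_eq ?_) (Real.rpow_le_rpow (by positivity)
      (mul_le_mul_of_nonneg_left (h3 _ Nat.one_le_two_pow) (by positivity)) p0.le)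
    rw [show (2 ^ k : ℝ) = ((2 ^ k) ^ (1 + α)) ^ p by
      rw [← Real.rpow_mul (by positivity), p2, Real.rpow_one],
      ← Real.mul_rpow (by positivity) (by positivity)]
    congr 1
    push_cast
    rw [pow_succ, Real.mul_rpow (by positivity) (by positivity), show 1 + α = 2 + (α - 1) by ring,
      Real.rpow_add (by positivity), Real.rpow_two, ← pow_mul, mul_comm k, pow_mul]
    norm_num
    ring) M
  have h7 := tm_nH (M + 1) p0
  refine ⟨tm (M + 1), M + 1 + 1, tm_mart _, ENNReal.rpow_lt_top_of_nonneg (by positivity)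
    (h7.trans_lt ENNReal.ofReal_lt_top).ne, ?_⟩
  have z0 := h4 (2 ^ (M + 1 + 1)) Nat.one_le_two_pow
  have z1 := h5 (2 ^ (M + 1 + 1)) Nat.one_le_two_pow
  rw [← ENNReal.rpow_lt_rpow_iff p0, nH, nL, ENNReal.mul_rpow_of_nonneg _ _ p0.le, one_div p,
    ENNReal.rpow_inv_rpow p0.ne', ENNReal.rpow_inv_rpow p0.ne']
  simp only [← ofReal_norm_eq_enorm, ENNReal.ofReal_rpow_of_nonneg (norm_nonneg _) p0.le] at h7 ⊢
  simp only [norm_mul, Real.norm_eq_abs, tm_S, Real.mul_rpow (abs_nonneg _) (abs_nonneg _),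
    ENNReal.ofReal_mul (Real.rpow_nonneg (abs_nonneg _) _)] at h7 ⊢
  rw [lintegral_const_mul' _ _ ENNReal.ofReal_ne_top]
  have k1 : 0 < M * κ := lt_of_le_of_lt (by positivity) ((div_lt_iff₀ k0).1 hM)
  rw [← ofReal_integral_eq_lintegral_ofReal (Integrable.of_integral_ne_zero (k1.trans_le h6).ne')
    (.of_forall fun x => by positivity), ← ENNReal.ofReal_mul (by positivity),
    ← ENNReal.ofReal_coe_nnreal, ENNReal.ofReal_rpow_of_nonneg K.coe_nonneg p0.le]
  refine (mul_le_mul_right h7 _).trans_lt ?_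
  rw [← ENNReal.ofReal_mul (by positivity), ENNReal.ofReal_lt_ofReal_iff_of_nonneg (by positivity),
    abs_of_pos (inv_pos.2 z0), Real.inv_rpow z0.le, lt_inv_mul_iff₀ (by positivity)]
  refine lt_of_le_of_lt ?_ (((div_lt_iff₀ k0).1 hM).trans_le h6)
  push_cast at z1
  rw [pow_succ (2 : ℝ) (M + 1)] at z1
  rw [inv_pow]
  have t0 : (0 : ℝ) < 2 ^ (M + 1) := by positivity
  generalize (2 : ℝ) ^ (M + 1) = t at z1 t0 ⊢
  grw [z1]
  rw [show t⁻¹ = (t ^ (-(1 + α))) ^ p by
    rw [← Real.rpow_mul t0.le, neg_mul, p2, Real.rpow_neg_one], ← Real.mul_rpow, ← Real.mul_rpow, ← Real.mul_rpow, Real.rpow_neg t0.le, Real.rpow_add t0,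
    Real.rpow_one, Real.mul_rpow t0.le two_pos.le]
  · refine le_of_eq (congrArg (· ^ p) ?_)
    field_simp
  all_goals positivity

end Pool.Agent.H.MP_d27c5e_an
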